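import Pool.Agent.Helper37.WMC.Far
import Pool.Agent.Helper37.WMC.Proc
import Pool.Agent.Helper37.WMH.SmallInc

/-!
# The weak Mertens hypothesis and the limiting distribution of `M(x)/√x`

Let `M(x) = ∑_{n ≤ x} μ(n)`, `I(x) = ∫_1^x (M(u)/u)² du`, `m(v) = M(e^v) e^(-v/2)`, and write `ρ = 1/2 + iγ` for the nontrivial
zeros of `ζ`.

* The weak Mertens bound `I(x) ≪ log x` holds if and only if `m(v)` has a limiting distribution with second moments.
* Unconditionally, either `I(x)/log x → ∞`, or for all real `τ_1, …, τ_k` the vector `(m(v + τ_1), …, m(v + τ_k))` has a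
  limiting distribution with second moments; it has mean zero and the covariances `∑_ρ cos(γ (τ_i - τ_j))/|ρ ζ'(ρ)|²`; and
  for some `c > 0` both `M(x) > c √x` and `M(x) < -c √x` hold on sets of positive lower logarithmic density.

Proof.  If `I(x)/log x` does not tend to infinity, then the Riemann Hypothesis holds, all zeros are simple and
`∑ 1/|ρ ζ'(ρ)|²` converges, and by the converse of Titchmarsh's theorem (`TitchmarshConverse`) the sum of
`e^(iγv)/(ρ ζ'(ρ))` over all zeros in a suitable finite set is as close as we like to `m(v)` in square mean.  Hence the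
characteristic functions of the laws of `(m(v + τ_1), …, m(v + τ_k))`, `0 < v ≤ V`, converge, the family is tight and its second
moments are uniformly integrable.
-/

set_option autoImplicit false

open MeasureTheory Filter Topology

namespace Pool.Agent.Results.MP_323ce2_nt.LimitingDistribution

/-- The Mertens function. -/
noncomputable def M (x : ℝ) : ℝ := ∑ n ∈ Finset.Icc 1 ⌊x⌋₊, ((ArithmeticFunction.moebius n : ℤ) : ℝ)

/-- `I(x) = ∫_1^x (M(u)/u)² du`. -/
noncomputable def I (x : ℝ) : ℝ := ∫ u in (1:ℝ)..x, (M u / u) ^ 2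

/-- The nontrivial zeros of `ζ`. -/
def NT : Set ℂ := {ρ | riemannZeta ρ = 0 ∧ 0 < ρ.re ∧ ρ.re < 1}

/-- The weak Mertens bound. -/
def WeakMertens : Prop := ∃ C : ℝ, ∀ x : ℝ, 2 ≤ x → I x ≤ C * Real.log x

/-- `m(v) = M(e^v) e^(-v/2)`, that is, `M(x)/√x` for `x = e^v`. -/
noncomputable def m (v : ℝ) : ℝ := M (Real.exp v) * Real.exp (-(v / 2))

/-- The probability measure `ν` on `ℝ^k` is the joint limiting distribution, with second moments, of
`m(v + τ_1), …, m(v + τ_k)`: every continuous `φ` of at most quadratic growth is `ν`-integrable, and the average of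
`φ(m(v + τ_1), …, m(v + τ_k))` over `0 < v ≤ V` tends to `∫ φ dν` as `V → ∞`. -/
def IsLimit {k : ℕ} (τ : Fin k → ℝ) (ν : Measure (Fin k → ℝ)) : Prop :=
  IsProbabilityMeasure ν ∧ ∀ φ : (Fin k → ℝ) → ℝ, Continuous φ → (∃ C, ∀ x, |φ x| ≤ C * (1 + ∑ j, x j ^ 2)) →
    Integrable φ ν ∧
      Tendsto (fun V : ℝ => (∫ v in (0:ℝ)..V, φ (fun j => m (v + τ j))) / V) atTop (𝓝 (∫ x, φ x ∂ν))

section aux

open Pool.Agent.Helper37.WMH Pool.Agent.Helper37.WMC
open Pool.Agent.H295R2 (II JJ II_eq II_exp)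

/-- The Riemann Hypothesis and the simplicity of all nontrivial zeros. -/
def RHSimple : Prop := ∀ ρ ∈ NT, ρ.re = 1 / 2 ∧ deriv riemannZeta ρ ≠ 0

lemma freq {C : ℝ} (h : ∃ᶠ x : ℝ in atTop, I x ≤ C * Real.log x) : RHSimple ∧ AsympP := by
  classical
  obtain ⟨hR, hb⟩ := basic h
  refine ⟨hR, Asymp_of_sum hR ?_⟩
  have h1 : ∀ ρ : NT, 0 ≤ ‖aa ρ‖ ^ 2 := fun ρ => by positivity
  refine summable_of_sum_le h1 (c := C) fun u => ?_
  have h2 := hb (u.map (Function.Embedding.subtype _)) (by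
    intro ρ hρ
    rw [Finset.mem_map] at hρ
    obtain ⟨σ, _, rfl⟩ := hρ
    exact σ.2)
  rw [Finset.sum_map] at h2
  exact h2

lemma weak_of_asymp (h : AsympP) : WeakMertens := by
  obtain ⟨hs, ht⟩ := h
  set S := ∑' ρ : Pool.Agent.Helper37.WMH.NT, ‖aa ρ‖ ^ 2 with hS
  have hS0 : 0 ≤ S := tsum_nonneg fun _ => by positivity
  have h1 : ∀ᶠ x : ℝ in atTop, I x / Real.log x < S + 1 := ht.eventually_lt_const (by linarith)
  obtain ⟨x₀, hx₀⟩ := eventually_atTop.1 (h1.and (eventually_ge_atTop (2:ℝ)))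
  have hl2 : 0 < Real.log 2 := Real.log_pos (by norm_num)
  refine ⟨max (S + 1) (JJ (Real.log x₀) / Real.log 2), fun x hx => ?_⟩
  have hlx : Real.log 2 ≤ Real.log x := Real.log_le_log (by norm_num) hx
  have hlx0 : 0 < Real.log x := by linarith
  rcases le_or_gt x₀ x with h2 | h2
  · have h3 := (hx₀ x h2).1
    rw [div_lt_iff₀ hlx0] at h3
    refine h3.le.trans ?_
    gcongr
    exact le_max_left _ _
  · have hIx : I x = JJ (Real.log x) := II_eq (by linarith)
    have h3 : JJ (Real.log x) ≤ JJ (Real.log x₀) := JJ_mono (Real.log_le_log (by linarith) h2.le)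
    have h4 := JJ_nonneg (Real.log x₀)
    calc I x ≤ JJ (Real.log x₀) := by rw [hIx]; exact h3
      _ = JJ (Real.log x₀) / Real.log 2 * Real.log 2 := by field_simp
      _ ≤ JJ (Real.log x₀) / Real.log 2 * Real.log x := by gcongr
      _ ≤ _ := by
        apply mul_le_mul_of_nonneg_right (le_max_right _ _) hlx0.le

lemma top_of_not (h : ¬ (RHSimple ∧ AsympP)) : Tendsto (fun x : ℝ => I x / Real.log x) atTop atTop := by
  rw [tendsto_atTop]
  intro C
  by_contra hcon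
  rw [Filter.not_eventually] at hcon
  apply h
  refine freq (C := C) ((hcon.and_eventually (eventually_gt_atTop (1:ℝ))).mono fun x hx => ?_)
  have h1 : 0 < Real.log x := Real.log_pos hx.2
  have h2 := not_le.1 hx.1
  rw [div_lt_iff₀ h1] at h2
  exact h2.le

/-- intervals and sets -/
lemma int_conv (f : ℝ → ℝ) {l : ℝ} : Tendsto (fun V : ℝ => (∫ v in (0:ℝ)..V, f v) / V) atTop (𝓝 l) ↔
    Tendsto (fun V : ℝ => (∫ v in Set.Ioc 0 V, f v) / V) atTop (𝓝 l) := by
  apply tendsto_congr'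
  filter_upwards [eventually_ge_atTop 0] with V hV
  rw [intervalIntegral.integral_of_le hV]

lemma exists_limit (hR : RHSimple) (h : AsympP) {k : ℕ} (τ : Fin k → ℝ) : ∃ ν, IsLimit τ ν := by
  obtain ⟨ν, h1, h2⟩ := proc_limit h hR τ
  refine ⟨ν, h1, fun φ hφ hC => ?_⟩
  obtain ⟨h3, h4⟩ := h2 φ hφ hC
  exact ⟨h3, (int_conv _).2 h4⟩

lemma quad_one {k : ℕ} (i j : Fin k) (x : Fin k → ℝ) : |x i * x j| ≤ 1 * (1 + ∑ j, x j ^ 2) := by
  have h1 : ∀ i, x i ^ 2 ≤ ∑ j, x j ^ 2 := fun i =>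
    Finset.single_le_sum (f := fun j => x j ^ 2) (fun j _ => sq_nonneg _) (Finset.mem_univ i)
  have h2 := h1 i
  have h3 := h1 j
  rw [abs_le]
  constructor
  · nlinarith [sq_nonneg (x i + x j)]
  · nlinarith [sq_nonneg (x i - x j)]

lemma quad_lin {k : ℕ} (i : Fin k) (x : Fin k → ℝ) : |x i| ≤ 1 * (1 + ∑ j, x j ^ 2) := by
  have h1 : x i ^ 2 ≤ ∑ j, x j ^ 2 :=
    Finset.single_le_sum (f := fun j => x j ^ 2) (fun j _ => sq_nonneg _) (Finset.mem_univ i)
  rw [abs_le]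
  constructor
  · nlinarith [sq_nonneg (x i + 1)]
  · nlinarith [sq_nonneg (x i - 1)]

lemma moments (hR : RHSimple) (h : AsympP) {k : ℕ} {τ : Fin k → ℝ} {ν : Measure (Fin k → ℝ)} (hν : IsLimit τ ν) :
    (∀ i, ∫ x, x i ∂ν = 0) ∧ ∀ i j, HasSum (fun ρ : NT => Real.cos ((ρ : ℂ).im * (τ i - τ j)) /
      ‖(ρ : ℂ) * deriv riemannZeta ρ‖ ^ 2) (∫ x, x i * x j ∂ν) := by
  obtain ⟨_, h2⟩ := hν
  refine ⟨fun i => ?_, fun i j => ?_⟩
  · have h3 := (h2 (fun x => x i) (continuous_apply i) ⟨1, quad_lin i⟩).2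
    have h4 := (int_conv _).2 (mean0 h hR (τ i))
    exact tendsto_nhds_unique h3 h4
  · have h3 := (h2 (fun x => x i * x j) ((continuous_apply i).mul (continuous_apply j)) ⟨1, quad_one i j⟩).2
    obtain ⟨h5, h6⟩ := cov h hR (τ i) (τ j)
    have h4 := (int_conv _).2 h6
    have h7 := tendsto_nhds_unique h3 h4
    rw [h7]
    have e : (fun ρ : NT => Real.cos ((ρ : ℂ).im * (τ i - τ j)) / ‖(ρ : ℂ) * deriv riemannZeta ρ‖ ^ 2) =
        fun ρ : NT => Real.cos ((ρ : ℂ).im * (τ i - τ j)) * ‖aa ρ‖ ^ 2 := by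
      funext ρ
      rw [norm_aa_sq]; ring
    rw [e]
    exact h5

lemma signs (hR : RHSimple) (h : AsympP) : ∃ c : ℝ, 0 < c ∧ ∃ δ : ℝ, 0 < δ ∧ ∀ᶠ V : ℝ in atTop,
    δ * V ≤ volume.real {v | 0 < v ∧ v ≤ V ∧ c < m v} ∧ δ * V ≤ volume.real {v | 0 < v ∧ v ≤ V ∧ m v < -c} := by
  obtain ⟨ν, hν⟩ := exists_limit hR h (fun _ : Fin 1 => (0:ℝ))
  obtain ⟨h0, hc⟩ := moments hR h hν
  have h00 := h0 0
  have hcc := hc 0 0
  have hS0 : 0 < ∑' ρ : NT, ‖aa ρ‖ ^ 2 := S_pos hR h.1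
  obtain ⟨_, h2⟩ := hν
  have hsq := (h2 (fun x => x 0 * x 0) ((continuous_apply 0).mul (continuous_apply 0)) ⟨1, quad_one 0 0⟩)
  have hS : 0 < ∫ x, x 0 * x 0 ∂ν := by
    have e : (fun ρ : NT => Real.cos ((ρ : ℂ).im * (0 - 0)) / ‖(ρ : ℂ) * deriv riemannZeta ρ‖ ^ 2) = fun ρ : NT => ‖aa ρ‖ ^ 2 := by
      funext ρ
      rw [norm_aa_sq]; simp
    rw [e] at hcc
    rw [← hcc.tsum_eq]
    exact hS0
  have hi : Integrable (fun x : Fin 1 → ℝ => x 0) ν := (h2 (fun x => x 0) (continuous_apply 0) ⟨1, quad_lin 0⟩).1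
  have hm2 : Measurable mr := mr_meas
  have e0 : ∀ v : ℝ, m (v + 0) = mr v := by intro v; rw [add_zero]; rfl
  have hI : ∀ V : ℝ, IntegrableOn (fun v => mr v ^ 2) (Set.Ioc 0 V) := by
    intro V
    simp_rw [mr_sq]
    exact tame_sq_iOn tame_m0 V
  have hsq2 : Tendsto (fun V : ℝ => (∫ v in Set.Ioc 0 V, mr v ^ 2) / V) atTop (𝓝 (∫ x, x 0 * x 0 ∂ν)) := by
    have := (int_conv _).1 hsq.2
    simp_rw [e0, ← sq] at this
    simp_rw [← sq]
    exact this
  -- positive part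
  have hp : ∀ s : ℝ, s ^ 2 = 1 → ∃ c : ℝ, 0 < c ∧ ∃ δ : ℝ, 0 < δ ∧ ∀ᶠ V : ℝ in atTop,
      δ * V ≤ volume.real (Set.Ioc 0 V ∩ {v | c < s * mr v}) := by
    intro s hs
    have hA : 0 < ∫ x, max (s * x 0) 0 ∂ν := by
      apply pos_part_pos (hi.const_mul s)
      · rw [integral_const_mul, h00, mul_zero]
      · have : (fun x : Fin 1 → ℝ => (s * x 0) ^ 2) = fun x => x 0 * x 0 := by
          funext x
          rw [mul_pow, hs]; ring
        rw [this]
        exact hS.ne'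
    have hφ := (h2 (fun x => max (s * x 0) 0) (by fun_prop) ⟨1, fun x => by
      have h5 := quad_lin 0 x
      have h6 : |s * x 0| = |x 0| := by
        rw [abs_mul]
        have : |s| = 1 := by
          rw [← sq_abs] at hs
          nlinarith [abs_nonneg s]
        rw [this, one_mul]
      rw [abs_of_nonneg (le_max_right _ _)]
      have h7 := le_abs_self (s * x 0)
      apply max_le
      · linarith
      · exact (abs_nonneg _).trans h5⟩).2
    have h3 := (int_conv _).1 hφ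
    simp_rw [e0] at h3
    have h4 : Tendsto (fun V : ℝ => (∫ v in Set.Ioc 0 V, (s * mr v) ^ 2) / V) atTop (𝓝 (∫ x, x 0 * x 0 ∂ν)) := by
      simp_rw [mul_pow, hs, one_mul]
      exact hsq2
    refine dens (hm2.const_mul s) (fun V => ?_) hA hS.le h3 h4
    simp_rw [mul_pow, hs, one_mul]
    exact hI V
  obtain ⟨c₁, hc₁, δ₁, hδ₁, q₁⟩ := hp 1 (by norm_num)
  obtain ⟨c₂, hc₂, δ₂, hδ₂, q₂⟩ := hp (-1) (by norm_num)
  refine ⟨min c₁ c₂, lt_min hc₁ hc₂, min δ₁ δ₂, lt_min hδ₁ hδ₂, ?_⟩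
  filter_upwards [q₁, q₂, eventually_ge_atTop 0] with V a b hV
  have hfin : ∀ s : Set ℝ, volume (Set.Ioc 0 V ∩ s) ≠ ⊤ := fun s =>
    ne_top_of_le_ne_top (by simp) (measure_mono Set.inter_subset_left)
  constructor
  · calc min δ₁ δ₂ * V ≤ δ₁ * V := mul_le_mul_of_nonneg_right (min_le_left _ _) hV
      _ ≤ _ := a
      _ ≤ _ := by
        apply measureReal_mono
        · rintro v ⟨h5, h6⟩
          refine ⟨h5.1, h5.2, ?_⟩
          have h7 : c₁ < 1 * mr v := h6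
          rw [one_mul] at h7
          exact (min_le_left _ _).trans_lt h7
        · refine ne_top_of_le_ne_top (hfin Set.univ) (measure_mono ?_)
          rintro v ⟨h5, h6, _⟩
          exact ⟨⟨h5, h6⟩, trivial⟩
  · calc min δ₁ δ₂ * V ≤ δ₂ * V := mul_le_mul_of_nonneg_right (min_le_right _ _) hV
      _ ≤ _ := b
      _ ≤ _ := by
        apply measureReal_mono
        · rintro v ⟨h5, h6⟩
          refine ⟨h5.1, h5.2, ?_⟩
          have h7 : c₂ < (-1) * mr v := h6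
          have h8 : min c₁ c₂ ≤ c₂ := min_le_right _ _
          show mr v < _
          linarith
        · refine ne_top_of_le_ne_top (hfin Set.univ) (measure_mono ?_)
          rintro v ⟨h5, h6, _⟩
          exact ⟨⟨h5, h6⟩, trivial⟩

lemma weak_of_limit {ν : Measure (Fin 1 → ℝ)} (h : IsLimit (fun _ : Fin 1 => (0:ℝ)) ν) : WeakMertens := by
  obtain ⟨_, h2⟩ := h
  have h3 := (int_conv _).1 (h2 (fun x => x 0 * x 0) ((continuous_apply 0).mul (continuous_apply 0)) ⟨1, quad_one 0 0⟩).2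
  set S := ∫ x, x 0 * x 0 ∂ν with hS
  have h4 := h3.eventually_lt_const (show S < S + 1 by linarith)
  have h5 : ∀ᶠ x : ℝ in atTop, I x ≤ (S + 1) * Real.log x := by
    filter_upwards [Real.tendsto_log_atTop.eventually h4, Real.tendsto_log_atTop.eventually (eventually_gt_atTop 0),
      eventually_gt_atTop 1] with x a b hx
    rw [div_lt_iff₀ b] at a
    have e : I x = JJ (Real.log x) := II_eq hx.le
    rw [e, JJ_eq]
    refine le_trans (le_of_eq ?_) a.le
    refine integral_congr_ae (Eventually.of_forall fun v => ?_)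
    simp only [add_zero]
    rw [← mr_sq, sq]
    rfl
  exact weak_of_asymp (freq h5.frequently).2

end aux

theorem result :
    (WeakMertens ↔ ∃ ν, IsLimit (fun _ : Fin 1 => (0:ℝ)) ν) ∧
    (Tendsto (fun x : ℝ => I x / Real.log x) atTop atTop ∨
      (∀ (k : ℕ) (τ : Fin k → ℝ), ∃ ν, IsLimit τ ν ∧ (∀ i, ∫ x, x i ∂ν = 0) ∧
        ∀ i j, HasSum (fun ρ : NT => Real.cos ((ρ : ℂ).im * (τ i - τ j)) / ‖(ρ : ℂ) * deriv riemannZeta ρ‖ ^ 2)
          (∫ x, x i * x j ∂ν)) ∧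
      ∃ c : ℝ, 0 < c ∧ ∃ δ : ℝ, 0 < δ ∧ ∀ᶠ V : ℝ in atTop,
        δ * V ≤ volume.real {v | 0 < v ∧ v ≤ V ∧ c < m v} ∧ δ * V ≤ volume.real {v | 0 < v ∧ v ≤ V ∧ m v < -c}) := by
  refine ⟨⟨?_, fun ⟨ν, hν⟩ => weak_of_limit hν⟩, ?_⟩
  · rintro ⟨C, hC⟩
    obtain ⟨hR, h⟩ := freq (C := C) (((eventually_ge_atTop 2).mono fun x hx => hC x hx).frequently)
    exact exists_limit hR h _
  · by_cases hc : RHSimple ∧ Pool.Agent.Helper37.WMH.AsympP
    · obtain ⟨hR, h⟩ := hc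
      refine Or.inr ⟨fun k τ => ?_, signs hR h⟩
      obtain ⟨ν, hν⟩ := exists_limit hR h τ
      exact ⟨ν, hν, moments hR h hν⟩
    · exact Or.inl (top_of_not hc)

end Pool.Agent.Results.MP_323ce2_nt.LimitingDistribution
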