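import Pool.Agent.Helper37.WMH.Shorts

/-!
# The weak Mertens hypothesis and the Möbius function in short intervals

Let `M(x) = ∑_{n ≤ x} μ(n)`, `I(x) = ∫_1^x (M(u)/u)² du` and, for `h > 0`,
`D(h, x) = ∫_1^x ((M(u + hu) - M(u))/u)² du`, the (logarithmic) variance of the sums of `μ(n)` over the short
intervals `u < n ≤ u + hu`.  Write `ρ = β + iγ` for the nontrivial zeros of `ζ` and
`J(T) = ∑_{0 < γ ≤ T} |ζ'(ρ)|^{-2}`.

* For each fixed `h > 0`, the weak Mertens bound `I(x) ≪ log x` is equivalent to `D(h, x) ≪ log x`.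
* The asymptotic formula `I(x) ~ log x ∑_ρ 1/|ρ ζ'(ρ)|²` (with a convergent series) holds if and only if
  `lim_{h → 0+} limsup_{x → ∞} D(h, x)/log x = 0`.
* If it holds, then `D(h, x)/log x` tends to `∑_ρ |(1+h)^ρ - 1|²/|ρ ζ'(ρ)|²` for every `h > 0`.
* For `0 < θ ≤ 2`: the Riemann Hypothesis, the simplicity of all nontrivial zeros and `J(T) ≪ T^{2-θ}` hold together
  if and only if `limsup_{x → ∞} D(h, x)/log x ≪ h^θ` for `0 < h ≤ 1`.
* For `c > 0`: the Riemann Hypothesis, the simplicity of all nontrivial zeros and `J(T) ~ c T` hold together if and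
  only if `D(h, x) ~ 2πc h log x` when first `x → ∞` and then `h → 0+`.  (Gonek's conjecture is the case `c = 3/π³`,
  and then `2πc = 6/π²` is the density of the squarefree integers.)
-/

set_option autoImplicit false

open MeasureTheory Filter Topology

namespace Pool.Agent.Results.MP_323ce2_nt.ShortIntervals

/-- The Mertens function. -/
noncomputable def M (x : ℝ) : ℝ := ∑ n ∈ Finset.Icc 1 ⌊x⌋₊, ((ArithmeticFunction.moebius n : ℤ) : ℝ)

/-- `I(x) = ∫_1^x (M(u)/u)² du`. -/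
noncomputable def I (x : ℝ) : ℝ := ∫ u in (1:ℝ)..x, (M u / u) ^ 2

/-- `D(h, x) = ∫_1^x ((M(u + hu) - M(u))/u)² du`. -/
noncomputable def D (h x : ℝ) : ℝ := ∫ u in (1:ℝ)..x, ((M (u + h * u) - M u) / u) ^ 2

/-- The nontrivial zeros of `ζ`. -/
def NT : Set ℂ := {ρ | riemannZeta ρ = 0 ∧ 0 < ρ.re ∧ ρ.re < 1}

/-- The Riemann Hypothesis and the simplicity of all nontrivial zeros. -/
def RHSimple : Prop := ∀ ρ ∈ NT, ρ.re = 1 / 2 ∧ deriv riemannZeta ρ ≠ 0

/-- `J(T)`, the sum of `1/|ζ'(ρ)|²` over the nontrivial zeros with `0 < γ ≤ T` (a finite sum). -/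
noncomputable def J (T : ℝ) : ℝ :=
  ∑ᶠ ρ ∈ {ρ : ℂ | ρ ∈ NT ∧ 0 < ρ.im ∧ ρ.im ≤ T}, 1 / ‖deriv riemannZeta ρ‖ ^ 2

/-- The weak Mertens bound. -/
def WeakMertens : Prop := ∃ C : ℝ, ∀ x : ℝ, 2 ≤ x → I x ≤ C * Real.log x

/-- The series `∑ 1/|ρ ζ'(ρ)|²` over the nontrivial zeros converges and `I(x)/log x` tends to its sum. -/
def Asymptotic : Prop := Summable (fun ρ : NT => 1 / ‖(ρ : ℂ) * deriv riemannZeta ρ‖ ^ 2) ∧
  Tendsto (fun x : ℝ => I x / Real.log x) atTop (𝓝 (∑' ρ : NT, 1 / ‖(ρ : ℂ) * deriv riemannZeta ρ‖ ^ 2))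

section aux

open Pool.Agent.Helper37.WMH
open Pool.Agent.H295R2 (II JJ II_eq II_exp)

lemma D_eq (h x : ℝ) : D h x = DI h x := rfl

lemma J_eq (T : ℝ) : J T = JM T := by
  classical
  unfold J JM
  have e : {ρ : ℂ | ρ ∈ NT ∧ 0 < ρ.im ∧ ρ.im ≤ T} = ((ZT T).filter (fun ρ => 0 < ρ.im) : Finset ℂ) := by
    ext ρ
    rw [Finset.coe_filter]
    simp only [Set.mem_ofPred_eq, mem_ZT]
    constructor
    · rintro ⟨h1, h2, h3⟩
      exact ⟨⟨h1, by rw [abs_of_pos h2]; exact h3⟩, h2⟩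
    · rintro ⟨⟨h1, h2⟩, h3⟩
      exact ⟨h1, h3, by rwa [abs_of_pos h3] at h2⟩
  rw [e, finsum_mem_coe_finset]
  rfl

lemma Asymp_iff : AsympP ↔ Asymptotic := by
  unfold AsympP Asymptotic
  simp_rw [norm_aa_sq]
  exact Iff.rfl

/-- change of variables for eventual statements -/
lemma conv {h : ℝ} (hh : 0 ≤ h) (P : ℝ → ℝ → Prop) :
    (∀ᶠ x : ℝ in atTop, P (D h x) (Real.log x)) ↔ ∀ᶠ V : ℝ in atTop, P (YD (Real.log (1 + h)) V) V := by
  constructor
  · intro h1
    have h2 := Real.tendsto_exp_atTop.eventually h1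
    filter_upwards [h2, eventually_ge_atTop 0] with V hV hV0
    rwa [D_eq, DI_exp hh hV0, Real.log_exp] at hV
  · intro h1
    have h2 := Real.tendsto_log_atTop.eventually h1
    filter_upwards [h2, eventually_ge_atTop 1] with x hx hx1
    rwa [D_eq, DI_eq hh hx1]

lemma Inc_iff : IncP ↔ ∀ ε : ℝ, 0 < ε → ∀ᶠ h : ℝ in 𝓝[>] 0, ∀ᶠ x : ℝ in atTop, D h x ≤ ε * Real.log x := by
  constructor
  · intro h1 ε hε
    obtain ⟨H₀, hH₀, h2⟩ := h1 ε hε
    have h3 := log_tend.eventually (Ioc_mem_nhdsGT hH₀)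
    filter_upwards [h3, self_mem_nhdsWithin] with h hh hh0
    have hh0' : (0:ℝ) < h := hh0
    rw [conv hh0'.le (fun a b => a ≤ ε * b)]
    exact eventually_atTop.2 (h2 _ hh.1 hh.2)
  · intro h1 ε hε
    obtain ⟨h₀, hh₀, h2⟩ := ev_to _ (h1 ε hε)
    refine ⟨Real.log (1 + h₀), Real.log_pos (by linarith), fun H hH hH1 => ?_⟩
    have h3 : 0 < Real.exp H - 1 := by have := Real.add_one_lt_exp hH.ne'; linarith
    have h4 : Real.exp H - 1 ≤ h₀ := by
      rw [Real.le_log_iff_exp_le (by linarith)] at hH1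
      linarith
    have h5 := h2 _ h3 h4
    rw [conv h3.le (fun a b => a ≤ ε * b), add_sub_cancel, Real.log_exp] at h5
    exact eventually_atTop.1 h5

lemma RHS_of_Asymp (h : AsympP) : RHS := (Ab_of_Asymp h).1

lemma term_eq {h : ℝ} (hh : 0 < h) (ρ : ℂ) : ‖((1 + h : ℝ) : ℂ) ^ ρ - 1‖ ^ 2 / ‖ρ * deriv riemannZeta ρ‖ ^ 2 =
    ‖aa ρ‖ ^ 2 * wH (Real.log (1 + h)) ρ := by
  rw [norm_aa_sq]
  unfold wH
  have h1 : ((1 + h : ℝ) : ℂ) ≠ 0 := by
    exact_mod_cast (show (1 + h : ℝ) ≠ 0 by positivity)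
  rw [Complex.cpow_def_of_ne_zero h1, ← Complex.ofReal_log (by positivity), mul_comm (((Real.log (1 + h) : ℝ) : ℂ))]
  ring

lemma log_le_self {h : ℝ} (hh : 0 < h) : Real.log (1 + h) ≤ h := by
  have := Real.log_le_sub_one_of_pos (show 0 < 1 + h by positivity)
  linarith

end aux

open Pool.Agent.Helper37.WMH in
open Pool.Agent.H295R2 (II JJ II_eq II_exp) in
theorem result :
    (∀ h : ℝ, 0 < h → (WeakMertens ↔ ∃ C : ℝ, ∀ᶠ x : ℝ in atTop, D h x ≤ C * Real.log x)) ∧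
    (Asymptotic ↔ ∀ ε : ℝ, 0 < ε → ∀ᶠ h : ℝ in 𝓝[>] 0, ∀ᶠ x : ℝ in atTop, D h x ≤ ε * Real.log x) ∧
    (Asymptotic → ∀ h : ℝ, 0 < h →
      Summable (fun ρ : NT => ‖((1 + h : ℝ) : ℂ) ^ (ρ : ℂ) - 1‖ ^ 2 / ‖(ρ : ℂ) * deriv riemannZeta ρ‖ ^ 2) ∧
      Tendsto (fun x : ℝ => D h x / Real.log x) atTop
        (𝓝 (∑' ρ : NT, ‖((1 + h : ℝ) : ℂ) ^ (ρ : ℂ) - 1‖ ^ 2 / ‖(ρ : ℂ) * deriv riemannZeta ρ‖ ^ 2))) ∧
    (∀ θ : ℝ, 0 < θ → θ ≤ 2 →
      ((RHSimple ∧ ∃ C : ℝ, ∀ T : ℝ, 1 ≤ T → J T ≤ C * T ^ (2 - θ)) ↔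
        ∃ C : ℝ, ∀ h : ℝ, 0 < h → h ≤ 1 → ∀ᶠ x : ℝ in atTop, D h x ≤ C * h ^ θ * Real.log x)) ∧
    (∀ c : ℝ, 0 < c →
      ((RHSimple ∧ Tendsto (fun T : ℝ => J T / T) atTop (𝓝 c)) ↔
        ∀ ε : ℝ, 0 < ε → ∀ᶠ h : ℝ in 𝓝[>] 0, ∀ᶠ x : ℝ in atTop,
          |D h x / (h * Real.log x) - 2 * Real.pi * c| ≤ ε)) := by
  have hl2 : 0 < Real.log 2 := Real.log_pos (by norm_num)
  refine ⟨fun h hh => ⟨?_, ?_⟩, ?_, ?_, fun θ hθ hθ2 => ⟨?_, ?_⟩, fun c hc => ⟨?_, ?_⟩⟩
  · -- the weak Mertens bound gives a bound for the increments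
    rintro ⟨C, hC⟩
    have hC0 : 0 ≤ C := by
      have h1 := hC 2 le_rfl
      have h2 : 0 ≤ I 2 := II_nonneg (x := 2) (by norm_num)
      by_contra hc
      push Not at hc
      nlinarith
    set H := Real.log (1 + h) with hH
    have hH0 : 0 < H := Real.log_pos (by linarith)
    refine ⟨4 * Real.exp H * (2 * C), ?_⟩
    rw [conv hh.le (fun a b => a ≤ 4 * Real.exp H * (2 * C) * b), ← hH]
    filter_upwards [eventually_ge_atTop (max H (Real.log 2))] with V hV
    have hV1 : H ≤ V := (le_max_left _ _).trans hV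
    have hV2 : Real.log 2 ≤ V := (le_max_right _ _).trans hV
    refine (YD_le_JJ hH0.le).trans ?_
    have h3 : 2 ≤ Real.exp (V + H) := by
      have := Real.exp_le_exp.2 (show Real.log 2 ≤ V + H by linarith)
      rwa [Real.exp_log (by norm_num)] at this
    have h4 := hC _ h3
    have h5 : I (Real.exp (V + H)) = JJ (V + H) := II_exp (by linarith)
    rw [h5, Real.log_exp] at h4
    calc 4 * Real.exp H * JJ (V + H) ≤ 4 * Real.exp H * (C * (V + H)) := by gcongr
      _ ≤ 4 * Real.exp H * (C * (2 * V)) := by gcongr; linarith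
      _ = _ := by ring
  · -- and conversely
    rintro ⟨C, hC⟩
    rw [conv hh.le (fun a b => a ≤ C * b)] at hC
    obtain ⟨K, hK, h1⟩ := JJ_le_YD (Real.log_pos (show 1 < 1 + h by linarith))
    obtain ⟨V₀, hV₀⟩ := eventually_atTop.1 (hC.and (eventually_ge_atTop (1:ℝ)))
    obtain ⟨_, hV01⟩ := hV₀ V₀ le_rfl
    refine ⟨max (K * (1 + |C|)) (JJ V₀ / Real.log 2), fun x hx => ?_⟩
    have hx1 : 1 ≤ x := by linarith
    have hlx : Real.log 2 ≤ Real.log x := Real.log_le_log (by norm_num) hx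
    have hIx : I x = JJ (Real.log x) := II_eq hx1
    rw [hIx]
    rcases le_or_gt V₀ (Real.log x) with h2 | h2
    · obtain ⟨h3, h4⟩ := hV₀ _ h2
      refine (h1 _ (by linarith)).trans ?_
      have h5 := le_abs_self C
      have h6 : 1 + YD (Real.log (1 + h)) (Real.log x) ≤ (1 + |C|) * Real.log x := by nlinarith
      calc K * (1 + YD (Real.log (1 + h)) (Real.log x)) ≤ K * ((1 + |C|) * Real.log x) := by gcongr
        _ = K * (1 + |C|) * Real.log x := by ring
        _ ≤ _ := by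
          apply mul_le_mul_of_nonneg_right (le_max_left _ _)
          linarith
    · have h3 : JJ (Real.log x) ≤ JJ V₀ := JJ_mono h2.le
      have h4 := JJ_nonneg V₀
      calc JJ (Real.log x) ≤ JJ V₀ := h3
        _ = JJ V₀ / Real.log 2 * Real.log 2 := by field_simp
        _ ≤ JJ V₀ / Real.log 2 * Real.log x := by gcongr
        _ ≤ _ := by
          apply mul_le_mul_of_nonneg_right (le_max_right _ _)
          linarith
  · rw [← Asymp_iff, ← Inc_iff]
    exact ⟨fun h => Inc_of_Asymp h (RHS_of_Asymp h), Asymp_of_Inc⟩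
  · intro hA h hh
    rw [← Asymp_iff] at hA
    have hR := RHS_of_Asymp hA
    simp_rw [term_eq hh]
    refine ⟨summable_wH hR hA.1 _, ?_⟩
    have h1 := (YD_lim hA hR (Real.log_pos (show 1 < 1 + h by linarith)).le).comp Real.tendsto_log_atTop
    refine h1.congr' ?_
    filter_upwards [eventually_ge_atTop 1] with x hx
    simp only [Function.comp]
    rw [D_eq, DI_eq hh.le hx]
  · rintro ⟨hR, C, hC⟩
    simp_rw [J_eq] at hC
    obtain ⟨_, B, hB, h1⟩ := YD_of_JM hR hθ hθ2 hC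
    refine ⟨B, fun h hh hh1 => ?_⟩
    have hH0 : 0 < Real.log (1 + h) := Real.log_pos (by linarith)
    have hH1 := log_le_self hh
    obtain ⟨V₀, hV₀⟩ := h1 _ hH0 (hH1.trans hh1)
    rw [conv hh.le (fun a b => a ≤ B * h ^ θ * b)]
    filter_upwards [eventually_ge_atTop V₀, eventually_ge_atTop 0] with V hV hV0
    refine (hV₀ V hV).trans ?_
    gcongr
  · rintro ⟨C, hC⟩
    obtain ⟨hR, h1⟩ := JM_of_YD (B := C) hθ (fun H hH hH2 => by
      have h3 : 0 < Real.exp H - 1 := by have := Real.add_one_lt_exp hH.ne'; linarith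
      have h4 : Real.exp H - 1 ≤ 1 := by
        have := Real.exp_le_exp.2 hH2
        rw [Real.exp_log (by norm_num)] at this
        linarith
      have h5 := hC _ h3 h4
      rw [conv h3.le (fun a b => a ≤ C * (Real.exp H - 1) ^ θ * b), add_sub_cancel, Real.log_exp] at h5
      exact eventually_atTop.1 h5)
    refine ⟨hR, Real.pi ^ 2 * C, fun T hT => ?_⟩
    rw [J_eq]
    exact h1 T hT
  · rintro ⟨hR, hJ⟩ ε hε
    simp_rw [J_eq] at hJ
    obtain ⟨hA, h1⟩ := DI_of_J hR hJ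
    filter_upwards [Metric.tendsto_nhds.1 h1 (ε / 2) (by positivity), self_mem_nhdsWithin] with h hh1 hh0
    have hh0' : (0:ℝ) < h := hh0
    rw [Real.dist_eq] at hh1
    rw [conv hh0'.le (fun a b => |a / (h * b) - 2 * Real.pi * c| ≤ ε)]
    have h2 := (YD_lim hA hR (Real.log_pos (show 1 < 1 + h by linarith)).le).div_const h
    have h3 := Metric.tendsto_nhds.1 h2 (ε / 2) (by positivity)
    filter_upwards [h3] with V hV
    rw [Real.dist_eq] at hV
    have e : YD (Real.log (1 + h)) V / V / h = YD (Real.log (1 + h)) V / (h * V) := by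
      rw [div_div, mul_comm]
    rw [e] at hV
    have h4 := abs_sub_le (YD (Real.log (1 + h)) V / (h * V)) (SS (Real.log (1 + h)) / h) (2 * Real.pi * c)
    change |YD (Real.log (1 + h)) V / (h * V) - SS (Real.log (1 + h)) / h| < ε / 2 at hV
    linarith
  · intro h1
    have hp := Real.pi_pos
    have hI : IncP := by
      rw [Inc_iff]
      intro ε hε
      have h2 : Tendsto (fun h : ℝ => (2 * Real.pi * c + 1) * h) (𝓝[>] 0) (𝓝 0) := by
        have h3 : Continuous (fun h : ℝ => (2 * Real.pi * c + 1) * h) := by fun_prop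
        have h4 := h3.tendsto 0
        rw [mul_zero] at h4
        exact h4.mono_left nhdsWithin_le_nhds
      filter_upwards [h1 1 one_pos, h2.eventually_lt_const hε, self_mem_nhdsWithin] with h hh1 hh2 hh0
      have hh0' : (0:ℝ) < h := hh0
      filter_upwards [hh1, eventually_gt_atTop (1:ℝ)] with x hx hx1
      have hlx : 0 < Real.log x := Real.log_pos hx1
      have h3 := (abs_le.1 hx).2
      have h4 : D h x / (h * Real.log x) ≤ 2 * Real.pi * c + 1 := by linarith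
      rw [div_le_iff₀ (by positivity)] at h4
      refine h4.trans ?_
      calc (2 * Real.pi * c + 1) * (h * Real.log x) = ((2 * Real.pi * c + 1) * h) * Real.log x := by ring
        _ ≤ ε * Real.log x := by gcongr
    have hA := Asymp_of_Inc hI
    have hR := RHS_of_Asymp hA
    refine ⟨hR, ?_⟩
    simp_rw [J_eq]
    refine J_of_SS hR hA.1 hc ?_
    rw [Metric.tendsto_nhds]
    intro ε hε
    filter_upwards [h1 (ε / 2) (by positivity), self_mem_nhdsWithin] with h hh1 hh0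
    have hh0' : (0:ℝ) < h := hh0
    rw [conv hh0'.le (fun a b => |a / (h * b) - 2 * Real.pi * c| ≤ ε / 2)] at hh1
    have h2 := (YD_lim hA hR (Real.log_pos (show 1 < 1 + h by linarith)).le).div_const h
    have h3 := (h2.sub_const (2 * Real.pi * c)).abs
    have h4 : |SS (Real.log (1 + h)) / h - 2 * Real.pi * c| ≤ ε / 2 := by
      refine le_of_tendsto h3 ?_
      filter_upwards [hh1] with V hV
      have e : YD (Real.log (1 + h)) V / V / h = YD (Real.log (1 + h)) V / (h * V) := by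
        rw [div_div, mul_comm]
      rw [e]
      exact hV
    rw [Real.dist_eq]
    linarith

end Pool.Agent.Results.MP_323ce2_nt.ShortIntervals
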