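import Pool.Agent.Helper37.WMC.Conv

/-!
# The weak Mertens hypothesis: the necessary conditions of Titchmarsh are sufficient

Let `M(x) = ∑_{n ≤ x} μ(n)`, `I(x) = ∫_1^x (M(u)/u)² du` and write `ρ` for the nontrivial zeros of `ζ`.

* The weak Mertens bound `I(x) ≪ log x` holds if and only if the Riemann Hypothesis holds, all nontrivial zeros are simple and
  `∑_ρ 1/|ρ ζ'(ρ)|²` converges.  (Necessity is due to Titchmarsh; sufficiency is new.)
* It holds if and only if this series converges and `I(x) ~ log x ∑_ρ 1/|ρ ζ'(ρ)|²`.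
* Unconditionally `I(x)/log x` has a limit in `(0, ∞]`: if the Riemann Hypothesis holds and all nontrivial zeros are simple, the
  limit is `∑_ρ 1/|ρ ζ'(ρ)|²`, be it finite or not, and otherwise the limit is `∞`.

Proof.  Put `g(w) = s (1 - s) Λ(s)`, `s = 1/2 + w`.  If all zeros `iγ` of `g` are imaginary and `a < b` are two consecutive
ordinates, then `|g(w)/((w - ia)(w - ib))|` is at least the geometric mean of its values at `ia` and `ib` for `w = c + it`,
`a ≤ t ≤ b`, `c ≥ 0`, since this is true for products of linear factors; so `1/|s ζ(s)|²` is at most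
`C t^c (|α|² + |β|²) (1/(c² + (t-a)²) + 1/(c² + (t-b)²))`, where `α`, `β` are the residues of `1/(s ζ(s))` at the two zeros.
Hence, for `c ≤ 1/log T`, the mean square `c ∫ |1/(s ζ(s))|² dt` over the frequencies `|t| ≍ T` is `≪ ∑_{|γ| ≍ T} 1/|ρ ζ'(ρ)|²`.
For `c ≥ 1/log T` the same bound, up to `T^(-1/2)`, follows by convexity from the lines `c = 1/log T` and `c = 1`: the part
of `M(e^v) e^(-v/2)` of these frequencies has a square mean with the weights `e^(-2cv)`.  So the high frequencies contribute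
little to the mean square of `M(e^v) e^(-v/2)`, which is therefore almost periodic in the mean.
-/

set_option autoImplicit false

open MeasureTheory Filter Topology

namespace Pool.Agent.Results.MP_323ce2_nt.TitchmarshConverse

/-- The Mertens function. -/
noncomputable def M (x : ℝ) : ℝ := ∑ n ∈ Finset.Icc 1 ⌊x⌋₊, ((ArithmeticFunction.moebius n : ℤ) : ℝ)

/-- `I(x) = ∫_1^x (M(u)/u)² du`. -/
noncomputable def I (x : ℝ) : ℝ := ∫ u in (1:ℝ)..x, (M u / u) ^ 2

/-- The nontrivial zeros of `ζ`. -/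
def NT : Set ℂ := {ρ | riemannZeta ρ = 0 ∧ 0 < ρ.re ∧ ρ.re < 1}

/-- The Riemann Hypothesis and the simplicity of all nontrivial zeros. -/
def RHSimple : Prop := ∀ ρ ∈ NT, ρ.re = 1 / 2 ∧ deriv riemannZeta ρ ≠ 0

/-- The weak Mertens bound. -/
def WeakMertens : Prop := ∃ C : ℝ, ∀ x : ℝ, 2 ≤ x → I x ≤ C * Real.log x

/-- The series `∑ 1/|ρ ζ'(ρ)|²` over the nontrivial zeros converges and `I(x)/log x` tends to its sum. -/
def Asymptotic : Prop := Summable (fun ρ : NT => 1 / ‖(ρ : ℂ) * deriv riemannZeta ρ‖ ^ 2) ∧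
  Tendsto (fun x : ℝ => I x / Real.log x) atTop (𝓝 (∑' ρ : NT, 1 / ‖(ρ : ℂ) * deriv riemannZeta ρ‖ ^ 2))

section aux

open Pool.Agent.Helper37.WMH Pool.Agent.Helper37.WMC
open Pool.Agent.H295R2 (II JJ II_eq II_exp)

lemma Asymp_iff : AsympP ↔ Asymptotic := by
  unfold AsympP Asymptotic
  simp_rw [norm_aa_sq]
  exact Iff.rfl

lemma freq {C : ℝ} (h : ∃ᶠ x : ℝ in atTop, I x ≤ C * Real.log x) : RHSimple ∧
    Summable (fun ρ : NT => 1 / ‖(ρ : ℂ) * deriv riemannZeta ρ‖ ^ 2) := by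
  classical
  obtain ⟨hR, hb⟩ := basic h
  refine ⟨hR, ?_⟩
  have h1 : ∀ ρ : NT, 0 ≤ 1 / ‖(ρ : ℂ) * deriv riemannZeta ρ‖ ^ 2 := fun ρ => by positivity
  refine summable_of_sum_le h1 (c := C) fun u => ?_
  have h2 := hb (u.map (Function.Embedding.subtype _)) (by
    intro ρ hρ
    rw [Finset.mem_map] at hρ
    obtain ⟨σ, _, rfl⟩ := hρ
    exact σ.2)
  rw [Finset.sum_map] at h2
  refine le_trans (le_of_eq (Finset.sum_congr rfl fun ρ _ => ?_)) h2
  exact (norm_aa_sq _).symm

lemma asymp_of_sum (hR : RHSimple) (hs : Summable (fun ρ : NT => 1 / ‖(ρ : ℂ) * deriv riemannZeta ρ‖ ^ 2)) :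
    Asymptotic := by
  rw [← Asymp_iff]
  refine Asymp_of_sum hR ?_
  simp_rw [norm_aa_sq]
  exact hs

lemma weak_of_asymp (h : Asymptotic) : WeakMertens := by
  obtain ⟨hs, ht⟩ := h
  set S := ∑' ρ : NT, 1 / ‖(ρ : ℂ) * deriv riemannZeta ρ‖ ^ 2 with hS
  have hS0 : 0 ≤ S := tsum_nonneg fun _ => by positivity
  have h1 : ∀ᶠ x : ℝ in atTop, I x / Real.log x < S + 1 := ht.eventually_lt_const (by linarith)
  obtain ⟨x₀, hx₀⟩ := eventually_atTop.1 (h1.and (eventually_ge_atTop (2:ℝ)))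
  have hl2 : 0 < Real.log 2 := Real.log_pos (by norm_num)
  refine ⟨max (S + 1) (JJ (Real.log x₀) / Real.log 2), fun x hx => ?_⟩
  have hlx : Real.log 2 ≤ Real.log x := Real.log_le_log (by norm_num) hx
  have hlx0 : 0 < Real.log x := by linarith
  rcases le_or_gt x₀ x with h2 | h2
  · have h3 := (hx₀ x h2).1
    rw [div_lt_iff₀ hlx0] at h3
    refine h3.le.trans ?_
    gcongr
    exact le_max_left _ _
  · have hIx : I x = JJ (Real.log x) := II_eq (by linarith)
    have h3 : JJ (Real.log x) ≤ JJ (Real.log x₀) := JJ_mono (Real.log_le_log (by linarith) h2.le)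
    have h4 := JJ_nonneg (Real.log x₀)
    calc I x ≤ JJ (Real.log x₀) := by rw [hIx]; exact h3
      _ = JJ (Real.log x₀) / Real.log 2 * Real.log 2 := by field_simp
      _ ≤ JJ (Real.log x₀) / Real.log 2 * Real.log x := by gcongr
      _ ≤ _ := by
        apply mul_le_mul_of_nonneg_right (le_max_right _ _) hlx0.le

lemma sum_of_weak (h : WeakMertens) : RHSimple ∧
    Summable (fun ρ : NT => 1 / ‖(ρ : ℂ) * deriv riemannZeta ρ‖ ^ 2) := by
  obtain ⟨C, hC⟩ := h
  exact freq (C := C) (((eventually_ge_atTop 2).mono fun x hx => hC x hx).frequently)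

lemma top_of_not (h : ¬ (RHSimple ∧ Summable (fun ρ : NT => 1 / ‖(ρ : ℂ) * deriv riemannZeta ρ‖ ^ 2))) :
    Tendsto (fun x : ℝ => I x / Real.log x) atTop atTop := by
  rw [tendsto_atTop]
  intro C
  by_contra hcon
  rw [Filter.not_eventually] at hcon
  apply h
  refine freq (C := C) ((hcon.and_eventually (eventually_gt_atTop (1:ℝ))).mono fun x hx => ?_)
  have h1 : 0 < Real.log x := Real.log_pos hx.2
  have h2 := not_le.1 hx.1
  rw [div_lt_iff₀ h1] at h2
  exact h2.le

end aux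

theorem result :
    (WeakMertens ↔ RHSimple ∧ Summable (fun ρ : NT => 1 / ‖(ρ : ℂ) * deriv riemannZeta ρ‖ ^ 2)) ∧
    (WeakMertens ↔ Asymptotic) ∧
    (RHSimple → Tendsto (fun x : ℝ => ENNReal.ofReal (I x / Real.log x)) atTop
      (𝓝 (∑' ρ : NT, ENNReal.ofReal (1 / ‖(ρ : ℂ) * deriv riemannZeta ρ‖ ^ 2)))) ∧
    (¬ RHSimple → Tendsto (fun x : ℝ => I x / Real.log x) atTop atTop) := by
  refine ⟨⟨sum_of_weak, fun h => weak_of_asymp (asymp_of_sum h.1 h.2)⟩,
    ⟨fun h => asymp_of_sum (sum_of_weak h).1 (sum_of_weak h).2, weak_of_asymp⟩, fun hR => ?_, fun hR => top_of_not fun h => hR h.1⟩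
  by_cases hs : Summable (fun ρ : NT => 1 / ‖(ρ : ℂ) * deriv riemannZeta ρ‖ ^ 2)
  · obtain ⟨_, ht⟩ := asymp_of_sum hR hs
    rw [← ENNReal.ofReal_tsum_of_nonneg (fun ρ => by positivity) hs]
    exact ENNReal.tendsto_ofReal ht
  · have h1 : ∑' ρ : NT, ENNReal.ofReal (1 / ‖(ρ : ℂ) * deriv riemannZeta ρ‖ ^ 2) = ⊤ := by
      by_contra hne
      apply hs
      have h2 := ENNReal.summable_toReal hne
      refine h2.congr fun ρ => ?_
      rw [ENNReal.toReal_ofReal (by positivity)]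
    rw [h1]
    exact ENNReal.tendsto_ofReal_atTop.comp (top_of_not fun h => hs h.2)

end Pool.Agent.Results.MP_323ce2_nt.TitchmarshConverse
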