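import Pool.Agent.Helper37.WMH.Part2

/-!
# The weak Mertens hypothesis and short sums over the zeros

Write `a_ρ = 1/(ρ ζ'(ρ))` for a nontrivial zero `ρ = β + iγ` of the Riemann zeta function and, for `δ > 0`,
`W(δ, x) = ∑_{x < γ ≤ x + δ} a_ρ`.

* The weak Mertens bound `I(x) ≪ log x` holds if and only if the Riemann Hypothesis holds, all nontrivial zeros are
  simple, and `∫ |W(δ, x)|² dx ≤ C δ` for all small `δ > 0`.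
* The asymptotic formula `I(x) ~ log x ∑_ρ |a_ρ|²` (with a convergent series) holds if and only if the Riemann
  Hypothesis holds, all nontrivial zeros are simple, and the zeros with `|γ| > T` contribute at most `ε δ` to the same
  integral for small `δ`, where `T` may depend on `ε`.
* The asymptotic formula holds if and only if `v ↦ M(e^v) e^{-v/2}` is almost periodic in mean square (Besicovitch).
-/

set_option autoImplicit false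

open MeasureTheory Filter Topology

namespace Pool.Agent.Results.MP_323ce2_nt.ZeroCriterion

/-- The Mertens function. -/
noncomputable def M (x : ℝ) : ℝ := ∑ n ∈ Finset.Icc 1 ⌊x⌋₊, ((ArithmeticFunction.moebius n : ℤ) : ℝ)

/-- `I(x) = ∫_1^x (M(u)/u)² du`. -/
noncomputable def I (x : ℝ) : ℝ := ∫ u in (1:ℝ)..x, (M u / u) ^ 2

/-- The nontrivial zeros of `ζ`. -/
def NT : Set ℂ := {ρ | riemannZeta ρ = 0 ∧ 0 < ρ.re ∧ ρ.re < 1}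

/-- The Riemann Hypothesis and the simplicity of all nontrivial zeros. -/
def RHSimple : Prop := ∀ ρ ∈ NT, ρ.re = 1 / 2 ∧ deriv riemannZeta ρ ≠ 0

/-- `a_ρ = 1/(ρ ζ'(ρ))`. -/
noncomputable def a (ρ : ℂ) : ℂ := 1 / (ρ * deriv riemannZeta ρ)

/-- `W(δ, x)`, the sum of `a_ρ` over all nontrivial zeros with `x < γ ≤ x + δ` (a finite sum). -/
noncomputable def W (δ x : ℝ) : ℂ := ∑ᶠ ρ ∈ {ρ : ℂ | ρ ∈ NT ∧ x < ρ.im ∧ ρ.im ≤ x + δ}, a ρ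

/-- `W_T(δ, x)`, the sum of `a_ρ` over all nontrivial zeros with `x < γ ≤ x + δ` and `|γ| > T`. -/
noncomputable def WT (T δ x : ℝ) : ℂ := ∑ᶠ ρ ∈ {ρ : ℂ | ρ ∈ NT ∧ T < |ρ.im| ∧ x < ρ.im ∧ ρ.im ≤ x + δ}, a ρ

/-- The weak Mertens bound. -/
def WeakMertens : Prop := ∃ C : ℝ, ∀ x : ℝ, 2 ≤ x → I x ≤ C * Real.log x

/-- The series `∑ 1/|ρ ζ'(ρ)|²` over the nontrivial zeros converges and `I(x)/log x` tends to its sum. -/
def Asymptotic : Prop := Summable (fun ρ : NT => 1 / ‖(ρ : ℂ) * deriv riemannZeta ρ‖ ^ 2) ∧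
  Tendsto (fun x : ℝ => I x / Real.log x) atTop (𝓝 (∑' ρ : NT, 1 / ‖(ρ : ℂ) * deriv riemannZeta ρ‖ ^ 2))

/-- The function `v ↦ M(e^v) e^{-v/2}` is almost periodic in mean square: for every `ε > 0` there is a trigonometric
polynomial whose mean square distance to it over `[0, V]` is at most `ε` for all large `V`. -/
def AlmostPeriodic : Prop := ∀ ε : ℝ, 0 < ε → ∃ (Λ : Finset ℝ) (c : ℝ → ℂ), ∀ᶠ V : ℝ in atTop,
  ∫ v in (0:ℝ)..V, ‖((M (Real.exp v) * Real.exp (-(v / 2)) : ℝ) : ℂ) -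
    ∑ l ∈ Λ, c l * Complex.exp (l * v * Complex.I)‖ ^ 2 ≤ ε * V

section aux

open Pool.Agent.Helper37.WMH

lemma FZ_finsum (Z : Finset ℂ) (S : Set ℂ) (δ x : ℝ)
    (hS : ∀ ρ : ℂ, ρ ∈ S ↔ ρ ∈ NT ∧ ρ ∉ Z ∧ x < ρ.im ∧ ρ.im ≤ x + δ) :
    FZ Z δ x = ∑ᶠ ρ ∈ S, a ρ := by
  classical
  obtain ⟨n, hn⟩ := exists_nat_ge (|x| + |δ|)
  rw [FZ_eq_FN hn]
  have e : S = ((ZT n).filter (fun ρ => ρ ∉ Z ∧ x < ρ.im ∧ ρ.im ≤ x + δ) : Finset ℂ) := by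
    ext ρ
    rw [hS, Finset.coe_filter]
    simp only [Set.mem_ofPred_eq, mem_ZT]
    constructor
    · rintro ⟨h1, h2, h3, h4⟩
      refine ⟨⟨h1, ?_⟩, h2, h3, h4⟩
      have h5 := abs_le.1 (le_refl |x|)
      have h6 := le_abs_self δ
      rw [abs_le]
      constructor
      · linarith [h5.1, abs_nonneg δ]
      · linarith [h5.2]
    · rintro ⟨⟨h1, _⟩, h2, h3, h4⟩
      exact ⟨h1, h2, h3, h4⟩
  rw [e, finsum_mem_coe_finset, Finset.sum_filter]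
  unfold FN
  refine Finset.sum_congr rfl fun ρ _ => ?_
  unfold aZ wd
  by_cases h1 : ρ ∈ Z
  · simp [h1]
  · by_cases h2 : x < ρ.im ∧ ρ.im ≤ x + δ
    · rw [if_neg h1, if_pos h2, if_pos ⟨h1, h2⟩, mul_one]; rfl
    · rw [if_neg h1, if_neg h2, if_neg (fun h => h2 h.2), mul_zero]

lemma W_eq (δ x : ℝ) : FZ ∅ δ x = W δ x := by
  unfold W
  apply FZ_finsum
  intro ρ
  simp only [Set.mem_ofPred_eq, Finset.notMem_empty, not_false_eq_true, true_and]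

lemma WT_eq (T δ x : ℝ) : FZ (ZT T) δ x = WT T δ x := by
  unfold WT
  apply FZ_finsum
  intro ρ
  simp only [Set.mem_ofPred_eq]
  constructor
  · rintro ⟨h1, h2, h3, h4⟩
    exact ⟨h1, fun h => absurd (mem_ZT.1 h).2 (not_le.2 h2), h3, h4⟩
  · rintro ⟨h1, h2, h3, h4⟩
    refine ⟨h1, ?_, h3, h4⟩
    by_contra hc
    exact h2 (mem_ZT.2 ⟨h1, not_lt.1 hc⟩)

lemma WE_W (δ : ℝ) : WE ∅ δ = ∫⁻ x : ℝ, ‖W δ x‖ₑ ^ 2 := by
  unfold WE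
  simp_rw [W_eq]

lemma WE_WT (T δ : ℝ) : WE (ZT T) δ = ∫⁻ x : ℝ, ‖WT T δ x‖ₑ ^ 2 := by
  unfold WE
  simp_rw [WT_eq]

lemma ev_iff (P : ℝ → Prop) : (∀ᶠ δ in 𝓝[>] (0:ℝ), P δ) ↔ ∃ δ₀ : ℝ, 0 < δ₀ ∧ ∀ δ, 0 < δ → δ ≤ δ₀ → P δ := by
  constructor
  · exact ev_to P
  · rintro ⟨δ₀, h0, h⟩
    filter_upwards [Ioc_mem_nhdsGT h0] with δ hδ
    exact h δ hδ.1 hδ.2

lemma WinP_iff : WinP ↔ ∀ ε : ℝ, 0 < ε → ∃ T : ℝ, 0 ≤ T ∧ ∀ᶠ δ : ℝ in 𝓝[>] 0,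
    ∫⁻ x : ℝ, ‖WT T δ x‖ₑ ^ 2 ≤ ENNReal.ofReal (ε * δ) := by
  unfold WinP
  simp_rw [ev_iff, WE_WT]

lemma Asymp_iff : AsympP ↔ Asymptotic := by
  unfold AsympP Asymptotic
  simp_rw [norm_aa_sq]
  exact Iff.rfl

lemma AP_iff : APP ↔ AlmostPeriodic := by
  unfold APP AlmostPeriodic
  have key : ∀ (Λ : Finset ℝ) (c : ℝ → ℂ) (V : ℝ), 0 ≤ V → ∫ v in (0:ℝ)..V,
      ‖((M (Real.exp v) * Real.exp (-(v / 2)) : ℝ) : ℂ) - ∑ l ∈ Λ, c l * Complex.exp (l * v * Complex.I)‖ ^ 2 =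
      ∫ u in Set.Ioc 0 V, ‖Pool.Agent.H295R2.m0 u - TP Λ c u‖ ^ 2 := by
    intro Λ c V hV
    rw [intervalIntegral.integral_of_le hV]
    rfl
  constructor
  · intro h ε hε
    obtain ⟨Λ, c, V₀, h1⟩ := h ε hε
    refine ⟨Λ, c, ?_⟩
    filter_upwards [eventually_ge_atTop V₀, eventually_ge_atTop 0] with V hV hV0
    rw [key Λ c V hV0]
    exact h1 V hV
  · intro h ε hε
    obtain ⟨Λ, c, h1⟩ := h ε hε
    obtain ⟨V₀, h2⟩ := eventually_atTop.1 (h1.and (eventually_ge_atTop 0))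
    refine ⟨Λ, c, V₀, fun V hV => ?_⟩
    obtain ⟨h3, h4⟩ := h2 V hV
    rwa [key Λ c V h4] at h3

end aux

theorem result :
    (WeakMertens ↔ RHSimple ∧ ∃ C : ℝ, ∀ᶠ δ : ℝ in 𝓝[>] 0, ∫⁻ x : ℝ, ‖W δ x‖ₑ ^ 2 ≤ ENNReal.ofReal (C * δ)) ∧
    (Asymptotic ↔ RHSimple ∧ ∀ ε : ℝ, 0 < ε → ∃ T : ℝ, 0 ≤ T ∧ ∀ᶠ δ : ℝ in 𝓝[>] 0,
      ∫⁻ x : ℝ, ‖WT T δ x‖ₑ ^ 2 ≤ ENNReal.ofReal (ε * δ)) ∧
    (Asymptotic ↔ AlmostPeriodic) := by
  have h2 := Pool.Agent.Helper37.WMH.part2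
  rw [Asymp_iff, AP_iff, WinP_iff] at h2
  refine ⟨⟨?_, ?_⟩, h2.1, h2.1.trans h2.2.symm⟩
  · rintro ⟨C, hC⟩
    obtain ⟨hR, C', _, h⟩ := Pool.Agent.Helper37.WMH.fwd (C := C) hC
    refine ⟨hR, C', (ev_iff _).2 ⟨1, one_pos, fun δ h0 h1 => ?_⟩⟩
    rw [← WE_W]
    exact h δ h0 h1
  · rintro ⟨hR, C, h⟩
    obtain ⟨δ₀, hδ₀, h1⟩ := (ev_iff _).1 h
    exact Pool.Agent.Helper37.WMH.bwd hR (C := |C|) (abs_nonneg C) hδ₀ fun δ h0 h3 => by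
      rw [WE_W]
      refine (h1 δ h0 h3).trans (ENNReal.ofReal_le_ofReal ?_)
      exact mul_le_mul_of_nonneg_right (le_abs_self C) h0.le

end Pool.Agent.Results.MP_323ce2_nt.ZeroCriterion
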